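import Pool.Agent.H571.JL.Defs
import Pool.Agent.H571.JC.Conv

/-!
# Jacobians of hyperelliptic curves over the function fields of hyperelliptic curves

Let `k` be a finite field of characteristic different from 2 in which `-1` is a square, `K = k(t)`,
`n = 2 g + 1 ≥ 3`, and let `a 1, …, a n` be polynomials over `k` such that all the differences
`a i - a j` (`i ≠ j`) have the same degree `N ≥ 1` and the product of the differences `a i - a j`,
`i < j`, is squarefree. (For example `N = 1`, `a i = c i t + (c i) ^ 2`, where the `c i` are distinct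
elements of `k` such that the sums `c i + c j`, `i < j`, are distinct.) Let `J_D` be the Jacobian of the
curve of genus `g`

`y ^ 2 = D(t) (x - a 1) ⋯ (x - a n)`,

for the monic squarefree polynomials `D` prime to the differences.

Theorem. There is a set `𝒢` of such polynomials `D` with the following properties.

* It contains at least a sixth of those of degree `m`, `m + N` odd (precisely: at least `1 / 6 - ε` of
  them, for all `ε > 0` and all `m ≥ m(ε)` with `m + N` odd).
* Let `D` and `D'` be any two different elements of `𝒢`, of the same or of different degrees. Then the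
  hyperelliptic curve `C : s ^ 2 = D(t) D'(t)` is geometrically irreducible, and for the Jacobian `J_D`
  (that is `J_D'`) over its function field `L = K(√(D D'))` all classes in `H ^ 1 (L, J_D)` of 2-power
  order, which are trivial over the completions of `L` at all the places of `L` not above `t = ∞`, are
  killed by 4. In particular the 2-primary part of the Tate-Shafarevich group of `J_D` over `L` is finite,
  of exponent dividing 4, and its Tate module is zero.

The genus of `C` is unbounded, and every `D` in `𝒢` belongs to such base curves `s ^ 2 = D D'` for a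
positive proportion of all `D'`. By Kato and Trihan the finiteness of the 2-primary part implies the
whole conjecture of Birch and Swinnerton-Dyer (the order of vanishing and the formula) for `J_D` over
`L`.

Proof. Let `c` be a locally trivial class of 2-power order over `L`. The corestriction of `c` to `K`, and
the corestriction of the image of `c` on the quadratic twist `J_{D'}` of `J_D` by `D D'`, are locally
trivial classes up to a factor two (`Pool.Agent.H571.JC.Cor`), so their doubles are zero if `D` and
`D'` are in the set of `Pool.Agent.Y164.HG.final` (the theorem on the twists over `K`). The hyperelliptic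
involution is the inversion on the Picard group (`Pool.Agent.H571.JC.Mu`), so `4 c` is the sum of the
restrictions of the doubles (`Pool.Agent.H571.JC.Stp`).
-/

set_option autoImplicit false
set_option linter.all false

namespace Pool.Agent.Results.MP_60d5ce_nt.HyperellipticBaseCurves

open Polynomial Filter Pool.Agent.H571.JL

/-- The product of the differences `a i - a j`, `i < j`. -/
noncomputable def differences {k : Type} [Field k] {n : ℕ} (a : Fin n → k[X]) : k[X] :=
  ∏ x ∈ (Finset.univ : Finset (Fin n × Fin n)).filter (fun x => x.1 < x.2), (a x.1 - a x.2)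

/-- The monic squarefree polynomials `D` of degree `m` prime to the differences `a i - a j`. -/
def Twists {k : Type} [Field k] {n : ℕ} (a : Fin n → k[X]) (m : ℕ) : Set k[X] :=
  {D | D.Monic ∧ D.natDegree = m ∧ Squarefree D ∧ ∀ i j, i ≠ j → IsCoprime D (a i - a j)}

/-- The polynomial `D(t) ∏ (x - a i)` in `x` over `K = k(t)`. -/
noncomputable def twist {k : Type} [Field k] (K : Type) [Field K] [Algebra k[X] K] {n : ℕ}
    (a : Fin n → k[X]) (D : k[X]) : K[X] :=
  C (algebraMap k[X] K D) * ∏ i, (X - C (algebraMap k[X] K (a i)))

/-- The curve `s ^ 2 = D D'` is geometrically irreducible, and over its function field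
`L = K(√(D D'))` the classes in `H ^ 1 (L, J_D)` of 2-power order, which are trivial over the
completions of `L` at the places not above `t = ∞`, are killed by 4, and the 2-adic Tate module of the
group of these classes is zero. -/
def IsGoodPair {k : Type} [Field k] (K : Type) [Field K] [Algebra k[X] K] [IsFractionRing k[X] K]
    {n : ℕ} (a : Fin n → k[X]) (D D' : k[X]) : Prop :=
  (∀ (c : k) (g : k[X]), D * D' ≠ C c * g ^ 2) ∧
  ∀ s : SeparableClosure K,
    s ^ 2 = algebraMap K (SeparableClosure K) (algebraMap k[X] K (D * D')) →
      ShaPrimaryKilledBy 2 (twist K a D) {s} k[X] 4 ∧ ShaTateTrivialOn 2 (twist K a D) {s} k[X]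

/-- `G` consists of polynomials in `Twists a m`, `m ≥ 0`, and contains at least `1 / 6 - ε` of the
elements of `Twists a m` for all `m ≥ m(ε)` with `m + N` odd. -/
def ContainsASixth {k : Type} [Field k] {n : ℕ} (N : ℕ) (a : Fin n → k[X]) (G : Set k[X]) : Prop :=
  (∀ D ∈ G, D ∈ Twists a D.natDegree) ∧
  ∀ ε : ℝ, 0 < ε → ∀ᶠ m : ℕ in atTop, Odd (m + N) →
    (1 / 6 - ε) * ((Twists a m).ncard : ℝ) ≤ (({D ∈ G | D.natDegree = m}).ncard : ℝ)

theorem result (k : Type) [Field k] [Finite k] (h2 : (2 : k) ≠ 0) (hi : IsSquare (-1 : k))
    (K : Type) [Field K] [Algebra k[X] K] [IsFractionRing k[X] K] (n : ℕ) (hn : Odd n)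
    (hn3 : 3 ≤ n) (N : ℕ) (hN : 1 ≤ N) (a : Fin n → k[X])
    (ha : ∀ i j, i ≠ j → (a i - a j).natDegree = N) (hs : Squarefree (differences a)) :
    (∃ c : ℝ, 0 < c ∧ ∀ᶠ m : ℕ in atTop,
      c * (Nat.card k : ℝ) ^ m ≤ ((Twists a m).ncard : ℝ)) ∧
    ∃ G : Set k[X], ContainsASixth N a G ∧
      ∀ D ∈ G, ∀ D' ∈ G, D ≠ D' → IsGoodPair K a D D' := by
  refine ⟨(Pool.Agent.Y164.HG.final h2 hi K hn hn3 N hN a ha hs).1, ?_⟩
  obtain ⟨G, h1, h3, h4⟩ := Pool.Agent.H571.JC.fin_main h2 hi K hn hn3 N hN a ha hs
  refine ⟨G, ⟨h1, h3⟩, fun D hD D' hD' hne => ?_⟩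
  obtain ⟨h5, h6⟩ := h4 D hD D' hD' hne
  refine ⟨h5, fun s hs => ?_⟩
  have h7 := Pool.Agent.H571.JC.conv (h6 s hs)
  exact ⟨h7, tate_of_killed (a := 2) h7⟩

end Pool.Agent.Results.MP_60d5ce_nt.HyperellipticBaseCurves
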